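import Pool.Agent.H33.AM.HB

/-!
# Critical almost Mathieu operator (MP_29bb0a_mp): module H10 (the norm of a cut-off function).
helper33
-/

open scoped ComplexConjugate

noncomputable section

namespace Pool.Agent.H33.AM

open Pool.Agent.H98.AM

theorem h10 (h1 : T_H1) : T_H10 := by
  intro s L j N _ ψ hs hL hN
  rw [cut_norm_sq]
  apply sum_vma_eq (fun k => (chi s L j k) ^ 2 * ‖ψ k‖ ^ 2)
  · intro k
    positivity
  · intro k hk
    have h : chi s L j k ≠ 0 := by
      intro h
      exact hk (by simp [h])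
    have := (h1 s L j k hs hL).2.2.2.2.1 h
    rw [Finset.mem_Ico]
    exact this
  · intro k hk
    rw [Finset.mem_Ico] at hk
    have h2 : (2 * ((j : ℤ) + 3) * L * s) ≤ N := by exact_mod_cast hN
    have h3 : (1 : ℤ) ≤ (L : ℤ) * s := by
      have h4 : 1 ≤ L * s := Nat.mul_pos hL hs
      exact_mod_cast h4
    have e1 : (((j : ℤ) + 2) * L * s) = ((j : ℤ) + 3) * L * s - L * s := by ring
    have e2 : (2 * ((j : ℤ) + 3) * L * s) = 2 * (((j : ℤ) + 3) * L * s) := by ring
    rw [e1] at hk
    rw [e2] at h2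
    constructor <;> omega

end Pool.Agent.H33.AM
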