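import Pool.Agent.H33.AM.HB

/-!
# Critical almost Mathieu operator (MP_29bb0a_mp): module H4 (size of the perturbation).
helper33
-/

open scoped ComplexConjugate

noncomputable section

namespace Pool.Agent.H33.AM

open Pool.Agent.H98.AM

theorem norm_mop_le {N : ℕ} [NeZero N] (g : ZMod N → ℂ) (hg : ∀ n, ‖g n‖ ≤ 1) (f : Rg N) :
    ‖mop g f‖ ≤ ‖f‖ := by
  refine le_of_sq_le_sq ?_ (norm_nonneg _)
  rw [EuclideanSpace.norm_sq_eq, EuclideanSpace.norm_sq_eq]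
  refine Finset.sum_le_sum fun n _ => ?_
  have h : (mop g f) n = g n * f n := rfl
  rw [h, norm_mul, mul_pow]
  have h1 : ‖g n‖ ^ 2 ≤ 1 := pow_le_one₀ (norm_nonneg _) (hg n)
  have h2 : 0 ≤ ‖f n‖ ^ 2 := by positivity
  nlinarith

theorem norm_bop_le {N : ℕ} [NeZero N] (a : ZMod N → ℂ) (C : ℝ) (ha : ∀ n, ‖a n‖ ≤ C)
    (f : Rg N) : ‖bop a f‖ ≤ 2 * C * ‖f‖ := by
  have hC : 0 ≤ C := (norm_nonneg _).trans (ha 0)
  set g1 : Rg N := WithLp.toLp 2 fun n => a n * f (n - 1) with hg1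
  set g2 : Rg N := WithLp.toLp 2 fun n => conj (a (n + 1)) * f (n + 1) with hg2
  have h : bop a f = g1 + g2 := by
    ext n
    rfl
  have h1 : ‖g1‖ ≤ C * ‖f‖ := by
    refine le_of_sq_le_sq ?_ (by positivity)
    rw [mul_pow, EuclideanSpace.norm_sq_eq, EuclideanSpace.norm_sq_eq]
    have e : ∑ i, ‖f i‖ ^ 2 = ∑ n, ‖f (n - 1)‖ ^ 2 :=
      (Equiv.sum_comp (Equiv.subRight (1 : ZMod N)) (fun y => ‖f y‖ ^ 2)).symm
    rw [e, Finset.mul_sum]
    refine Finset.sum_le_sum fun n _ => ?_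
    have h2 : g1 n = a n * f (n - 1) := rfl
    rw [h2, norm_mul, mul_pow]
    have h3 : ‖a n‖ ^ 2 ≤ C ^ 2 := pow_le_pow_left₀ (norm_nonneg _) (ha n) 2
    exact mul_le_mul_of_nonneg_right h3 (by positivity)
  have h2 : ‖g2‖ ≤ C * ‖f‖ := by
    refine le_of_sq_le_sq ?_ (by positivity)
    rw [mul_pow, EuclideanSpace.norm_sq_eq, EuclideanSpace.norm_sq_eq]
    have e : ∑ i, ‖f i‖ ^ 2 = ∑ n, ‖f (n + 1)‖ ^ 2 :=
      (Equiv.sum_comp (Equiv.addRight (1 : ZMod N)) (fun y => ‖f y‖ ^ 2)).symm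
    rw [e, Finset.mul_sum]
    refine Finset.sum_le_sum fun n _ => ?_
    have h2 : g2 n = conj (a (n + 1)) * f (n + 1) := rfl
    rw [h2, norm_mul, mul_pow, RCLike.norm_conj]
    have h3 : ‖a (n + 1)‖ ^ 2 ≤ C ^ 2 := pow_le_pow_left₀ (norm_nonneg _) (ha (n + 1)) 2
    exact mul_le_mul_of_nonneg_right h3 (by positivity)
  rw [h]
  refine (norm_add_le _ _).trans ?_
  linarith

theorem chi_mem (s L j : ℕ) (k : ℤ) : 0 ≤ chi s L j k ∧ chi s L j k ≤ 1 := by
  unfold chi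
  exact ⟨le_max_left _ _, max_le zero_le_one (min_le_left _ _)⟩

theorem rb_vma (p : ℤ) (s M : ℕ) [NeZero s] [NeZero M] (θ : ℝ) (n : ZMod (M * s)) :
    rb (p / s) θ (M * s) n = bnd (p / s) θ n.valMinAbs := by
  have hdvd : ∃ m : ℤ, ((n.val : ℤ)) = n.valMinAbs + (M * s : ℕ) * m := by
    have h1 : (((n.val : ℤ)) : ZMod (M * s)) = ((n.valMinAbs : ℤ) : ZMod (M * s)) := by
      rw [ZMod.coe_valMinAbs]
      simp
    rw [ZMod.intCast_eq_intCast_iff_dvd_sub] at h1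
    obtain ⟨c, hc⟩ := h1
    exact ⟨-c, by linarith⟩
  obtain ⟨m, hm⟩ := hdvd
  unfold rb bnd
  congr 1
  have hs : (s : ℝ) ≠ 0 := by exact_mod_cast NeZero.ne s
  have h2 : (((n.val : ℤ) : ℤ) : ℝ) * (p / s) + θ
      = ((n.valMinAbs : ℝ) * (p / s) + θ) + ((M * m * p : ℤ) : ℝ) := by
    rw [hm]
    push_cast
    field_simp
    ring
  rw [h2, ex_add_int]

theorem h4 : T_H4 := by
  intro p s L j M _ _ β θ φ δ hs hδ f
  have hδ0 : 0 ≤ δ := (abs_nonneg _).trans hδ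
  have hpi : Real.pi ≤ 3.15 := by
    have := Real.pi_lt_d2
    linarith
  unfold Vop
  rw [LinearMap.comp_apply]
  unfold Xop
  refine (norm_mop_le _ ?_ _).trans ?_
  · intro n
    rw [Complex.norm_real, Real.norm_eq_abs, abs_of_nonneg (chi_mem s L j _).1]
    exact (chi_mem s L j _).2
  · refine (norm_bop_le _ (Real.pi * (δ * M * s) + 2 * Real.pi * |φ|) ?_ f).trans ?_
    · intro n
      rw [rb_vma]
      unfold bnd
      set k : ℤ := n.valMinAbs with hk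
      have h1 : (k : ℝ) * β + (θ + φ) = (k * (p / s) + θ) + (k * (β - p / s) + φ) := by ring
      rw [h1, ex_add (k * (p / s) + θ)]
      have h2 : (1 - ex (↑k * (↑p / ↑s) + θ)
          - (1 - ex (↑k * (↑p / ↑s) + θ) * ex (↑k * (β - ↑p / ↑s) + φ)))
          = ex (↑k * (↑p / ↑s) + θ) * (ex (↑k * (β - ↑p / ↑s) + φ) - 1) := by ring
      rw [h2, norm_mul, norm_ex, one_mul]
      refine (norm_ex_sub_one _).trans ?_
      have h3 : |(k : ℝ)| ≤ (M * s) / 2 := by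
        have h4 : k.natAbs ≤ (M * s) / 2 := ZMod.natAbs_valMinAbs_le n
        have h5 : 2 * k.natAbs ≤ M * s := by omega
        have h6 : ((k.natAbs : ℕ) : ℝ) = |(k : ℝ)| := by
          rw [← Int.cast_natCast, Int.natCast_natAbs, Int.cast_abs]
        rw [← h6]
        have h7 : (2 : ℝ) * (k.natAbs : ℝ) ≤ M * s := by exact_mod_cast h5
        linarith
      have h4 : |(k : ℝ) * (β - p / s) + φ| ≤ (M * s) / 2 * δ + |φ| := by
        refine (abs_add_le _ _).trans ?_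
        rw [abs_mul]
        have := mul_le_mul h3 hδ (abs_nonneg _) (by positivity)
        linarith
      have h5 := mul_le_mul_of_nonneg_left h4 (by positivity : 0 ≤ 2 * Real.pi)
      refine h5.trans (le_of_eq ?_)
      ring
    · apply mul_le_mul_of_nonneg_right _ (norm_nonneg _)
      have h1 : 0 ≤ δ * M * s := by positivity
      have h2 : 0 ≤ |φ| := abs_nonneg _
      nlinarith

end Pool.Agent.H33.AM
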