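import Pool.Agent.H33.AM.HB

/-!
# Critical almost Mathieu operator (MP_29bb0a_mp): module H6 (a weak bond in every window of `s`
sites).
helper33
-/

open scoped ComplexConjugate

noncomputable section

namespace Pool.Agent.H33.AM

open Pool.Agent.H98.AM

theorem exists_o (p : ℤ) (s : ℕ) (hs : 0 < s) (hp : IsCoprime p (s : ℤ)) (q : ℤ) :
    ∃ (o : ℕ) (m : ℤ), o < s ∧ q + o * p = s * m := by
  obtain ⟨u, v, huv⟩ := hp
  have hs' : (0 : ℤ) < s := by exact_mod_cast hs
  refine ⟨((-q * u) % s).toNat, ?_⟩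
  have h1 : 0 ≤ (-q * u) % (s : ℤ) := Int.emod_nonneg _ (by omega)
  have h2 : (-q * u) % (s : ℤ) < s := Int.emod_lt_of_pos _ hs'
  have h3 : (((-q * u) % (s : ℤ)).toNat : ℤ) = (-q * u) % (s : ℤ) := Int.toNat_of_nonneg h1
  refine ⟨q * v - (-q * u) / s * p, by omega, ?_⟩
  rw [h3]
  have h4 : (-q * u) % (s : ℤ) = -q * u - s * ((-q * u) / s) := by
    have := Int.mul_ediv_add_emod (-q * u) s
    linarith
  rw [h4]
  have h5 : q * (u * p + v * s) = q := by rw [huv, mul_one]
  linear_combination (-1) * h5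

theorem h6 : T_H6 := by
  intro C0 hC
  refine ⟨⌈2 * C0⌉₊ + 1, ?_⟩
  intro p s β θ0 hs hp hβ a
  have hs0 : 2 * C0 ≤ s := by
    have h1 : ((⌈2 * C0⌉₊ + 1 : ℕ) : ℝ) ≤ s := by exact_mod_cast hs
    have h2 := Nat.le_ceil (2 * C0)
    push_cast at h1
    linarith
  have hsp : 0 < s := by omega
  have hspr : (0 : ℝ) < s := by exact_mod_cast hsp
  set x : ℝ := a * β + θ0 with hx
  set q : ℤ := round (s * x) with hq
  obtain ⟨o, m, ho, hm⟩ := exists_o p s hsp hp q
  have hm' : (q : ℝ) + o * p = s * m := by exact_mod_cast hm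
  refine ⟨o, (x - q / s) + o * (β - p / s), m, ho, ?_, ?_⟩
  · have h1 : |x - q / s| ≤ 1 / (2 * s) := by
      have h2 : |s * x - q| ≤ 1 / 2 := abs_sub_round (s * x)
      have h3 : x - q / s = (s * x - q) / s := by
        field_simp
      rw [h3, abs_div, abs_of_pos hspr, div_le_iff₀ hspr]
      refine h2.trans (le_of_eq ?_)
      field_simp
    have h4 : |(o : ℝ) * (β - p / s)| ≤ C0 / s ^ 2 := by
      rw [abs_mul, abs_of_nonneg (by positivity : (0 : ℝ) ≤ o)]
      have ho' : (o : ℝ) ≤ s := by exact_mod_cast ho.le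
      calc (o : ℝ) * |β - p / s| ≤ s * (C0 / s ^ 3) :=
            mul_le_mul ho' hβ (abs_nonneg _) hspr.le
        _ = C0 / s ^ 2 := by field_simp
    have h5 : C0 / s ^ 2 ≤ 1 / (2 * s) := by
      rw [div_le_div_iff₀ (by positivity) (by positivity)]
      nlinarith
    calc |x - q / s + o * (β - p / s)| ≤ |x - q / s| + |(o : ℝ) * (β - p / s)| := abs_add_le _ _
      _ ≤ 1 / (2 * s) + 1 / (2 * s) := by linarith
      _ = 1 / s := by field_simp; norm_num
  · have h6 : (o : ℝ) * (p / s) + q / s = m := by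
      field_simp
      linarith
    linear_combination h6 - hx

end Pool.Agent.H33.AM
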