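import Pool.Agent.H33.AM.HB

/-!
# Critical almost Mathieu operator (MP_29bb0a_mp): module H7 (moving the origin).
helper33
-/

open scoped ComplexConjugate

noncomputable section

namespace Pool.Agent.H33.AM

open Pool.Agent.H98.AM

theorem h7 : T_H7 := by
  intro β θ0 θ a m h ψ k
  have hb : ∀ k : ℤ, bnd β θ k = bnd β θ0 (a + k) := by
    intro k
    unfold bnd
    congr 1
    have h1 : ((a + k : ℤ) : ℝ) * β + θ0 = (k * β + θ) + m := by
      push_cast
      linarith
    rw [h1, ex_add_int]
  unfold lop
  simp only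
  rw [hb k, hb (k + 1)]
  have e1 : a + (k - 1) = a + k - 1 := by ring
  have e2 : a + (k + 1) = a + k + 1 := by ring
  rw [e1, e2]

end Pool.Agent.H33.AM
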