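import Pool.Agent.H33.AM.H9

/-!
# Critical almost Mathieu operator (MP_29bb0a_mp): module H8 (masses of cut-offs, summed over all
centres).
helper33
-/

open scoped ComplexConjugate

noncomputable section

namespace Pool.Agent.H33.AM

open Pool.Agent.H98.AM

theorem sum_shift_ico (g : ℤ → ℝ) (hg : ∀ k, 0 ≤ g k) (a b c d o : ℤ) (h1 : c ≤ a + o)
    (h2 : b + o ≤ d) : ∑ k ∈ Finset.Ico a b, g (o + k) ≤ ∑ m ∈ Finset.Ico c d, g m := by
  classical
  calc ∑ k ∈ Finset.Ico a b, g (o + k)
      = ∑ m ∈ (Finset.Ico a b).image (fun k => o + k), g m := by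
        rw [Finset.sum_image]
        intro x _ y _ h
        have h' : o + x = o + y := h
        omega
    _ ≤ ∑ m ∈ Finset.Ico c d, g m := by
        apply Finset.sum_le_sum_of_subset_of_nonneg
        · intro m hm
          rw [Finset.mem_image] at hm
          obtain ⟨k, hk, rfl⟩ := hm
          rw [Finset.mem_Ico] at hk ⊢
          omega
        · intro m _ _
          exact hg m

theorem sum_all {r : ℕ} [NeZero r] (f : Rg r) (B : Finset ℤ) :
    ∑ a ∈ Finset.range r, ∑ m ∈ B, ‖f (((a : ℤ) + m : ℤ) : ZMod r)‖ ^ 2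
      = (B.card : ℝ) * ‖f‖ ^ 2 := by
  rw [Finset.sum_comm]
  simp only [sum_translate]
  rw [Finset.sum_const, nsmul_eq_mul]

theorem h8 (h1 : T_H1) : T_H8 := by
  intro s L j r N _ _ ζ f o hs hL hζ ho hN
  have hLs : (s : ℤ) ≤ (L : ℤ) * s := by
    have : 1 * s ≤ L * s := Nat.mul_le_mul_right s hL
    rw [one_mul] at this
    exact_mod_cast this
  have hs' : (1 : ℤ) ≤ s := by exact_mod_cast hs
  constructor
  · have hN' : 6 * ((L : ℤ) * s) ≤ N := by
      have : ((6 * L * s : ℕ) : ℤ) ≤ N := by exact_mod_cast hN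
      push_cast at this
      linarith
    have key : ∀ a : ℕ, ∑ m ∈ Finset.Ico (-((L : ℤ) * s)) ((L : ℤ) * s),
        ‖f (((a : ℤ) + m : ℤ) : ZMod r)‖ ^ 2
        ≤ ‖(cut s L 0 (fun k => ext r ζ f (((a + o a : ℕ) : ℤ) + k)) : Rg N)‖ ^ 2 := by
      intro a
      have hoa : ((o a : ℕ) : ℤ) < s := by exact_mod_cast ho a
      have hoa0 : (0 : ℤ) ≤ ((o a : ℕ) : ℤ) := by positivity
      set B : Finset ℤ := Finset.Ico (-(((L : ℤ) * s) + s)) ((L : ℤ) * s + s) with hB
      rw [cut_norm_sq]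
      refine le_trans ?_ (sum_vma_ge (fun k => (chi s L 0 k) ^ 2
        * ‖ext r ζ f (((a + o a : ℕ) : ℤ) + k)‖ ^ 2) (fun k => by positivity) B ?_)
      · have e1 : ∀ m ∈ B, (chi s L 0 m) ^ 2 * ‖ext r ζ f (((a + o a : ℕ) : ℤ) + m)‖ ^ 2
            = ‖f ((((a : ℤ) + (o a + m) : ℤ)) : ZMod r)‖ ^ 2 := by
          intro m hm
          rw [hB, Finset.mem_Ico] at hm
          have h2 : chi s L 0 m = 1 := by
            apply (h1 s L 0 m hs hL).2.2.2.2.2
            · push_cast
              have : (1 * (L : ℤ) + 1) * s = (L : ℤ) * s + s := by ring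
              rw [this]
              exact hm.1
            · push_cast
              have : (1 * (L : ℤ) + 1) * s = (L : ℤ) * s + s := by ring
              rw [this]
              exact hm.2
          have e : (((a + o a : ℕ) : ℤ) + m) = (a : ℤ) + (o a + m) := by
            push_cast
            ring
          rw [h2, norm_ext hζ, one_pow, one_mul, e]
        rw [Finset.sum_congr rfl e1]
        have h3 := sum_shift_ico (fun x => ‖f (((a : ℤ) + ((o a : ℤ) + x) : ℤ) : ZMod r)‖ ^ 2)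
          (fun k => by positivity) (-((L : ℤ) * s)) ((L : ℤ) * s)
          (-(((L : ℤ) * s) + s)) ((L : ℤ) * s + s) (-(o a : ℤ)) (by omega) (by omega)
        refine le_trans (le_of_eq ?_) h3
        refine Finset.sum_congr rfl fun m _ => ?_
        have e : (a : ℤ) + ((o a : ℤ) + (-(o a : ℤ) + m)) = (a : ℤ) + m := by ring
        simp only [e]
      · intro k hk
        rw [hB, Finset.mem_Ico] at hk
        constructor
        · omega
        · omega
    calc 2 * L * s * ‖f‖ ^ 2
        = ((Finset.Ico (-((L : ℤ) * s)) ((L : ℤ) * s)).card : ℝ) * ‖f‖ ^ 2 := by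
          rw [card_ico _ (by positivity)]
          push_cast
          ring
      _ = ∑ a ∈ Finset.range r, ∑ m ∈ Finset.Ico (-((L : ℤ) * s)) ((L : ℤ) * s),
            ‖f (((a : ℤ) + m : ℤ) : ZMod r)‖ ^ 2 := (sum_all f _).symm
      _ ≤ _ := Finset.sum_le_sum fun a _ => key a
  · have key : ∀ a : ℕ, ‖(cut s L j (fun k => ext r ζ f (((a + o a : ℕ) : ℤ) + k)) : Rg N)‖ ^ 2
        ≤ ∑ m ∈ Finset.Ico (-(((j : ℤ) + 3) * L * s)) (((j : ℤ) + 3) * L * s),
          ‖f (((a : ℤ) + m : ℤ) : ZMod r)‖ ^ 2 := by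
      intro a
      have hoa : ((o a : ℕ) : ℤ) < s := by exact_mod_cast ho a
      have hoa0 : (0 : ℤ) ≤ ((o a : ℕ) : ℤ) := by positivity
      refine (cut_norm_sq_le h1 hs hL _).trans ?_
      have e3 : ((j : ℤ) + 3) * L * s = ((j : ℤ) + 2) * L * s + L * s := by ring
      rw [e3]
      refine le_trans (le_of_eq ?_) (sum_shift_ico
        (fun x => ‖f (((a : ℤ) + x : ℤ) : ZMod r)‖ ^ 2)
          (fun k => by positivity) (-(((j : ℤ) + 2) * L * s)) (((j : ℤ) + 2) * L * s)
          _ _ (o a : ℤ) (by omega) (by omega))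
      refine Finset.sum_congr rfl fun m _ => ?_
      have e : (((a + o a : ℕ) : ℤ) + m) = (a : ℤ) + (o a + m) := by
        push_cast
        ring
      rw [norm_ext hζ, e]
    calc _ ≤ ∑ a ∈ Finset.range r,
          ∑ m ∈ Finset.Ico (-(((j : ℤ) + 3) * L * s)) (((j : ℤ) + 3) * L * s),
            ‖f (((a : ℤ) + m : ℤ) : ZMod r)‖ ^ 2 := Finset.sum_le_sum fun a _ => key a
      _ = ((Finset.Ico (-(((j : ℤ) + 3) * L * s)) (((j : ℤ) + 3) * L * s)).card : ℝ)
            * ‖f‖ ^ 2 := sum_all f _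
      _ = 2 * (j + 3) * L * s * ‖f‖ ^ 2 := by
          rw [card_ico _ (by positivity)]
          push_cast
          ring

end Pool.Agent.H33.AM
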