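import Pool.Agent.H33.AM.HB

/-!
# Critical almost Mathieu operator (MP_29bb0a_mp): module H9 (Bessel inequality on a window).
helper33
-/

open scoped ComplexConjugate

noncomputable section

namespace Pool.Agent.H33.AM

open Pool.Agent.H98.AM

/-- `f ↦ χ_j(k) f(n+k)` as a linear map from the small ring to the large one -/
def cm {r N : ℕ} [NeZero r] [NeZero N] (s L j : ℕ) (ζ : ℂ) (n : ℤ) : Rg r →ₗ[ℂ] Rg N where
  toFun f := cut s L j (fun k => ext r ζ f (n + k))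
  map_add' f g := by
    ext x
    simp only [cut_apply, PiLp.add_apply, ext]
    ring
  map_smul' c f := by
    ext x
    simp only [cut_apply, PiLp.smul_apply, ext, smul_eq_mul, RingHom.id_apply]
    ring

theorem cm_apply {r N : ℕ} [NeZero r] [NeZero N] (s L j : ℕ) (ζ : ℂ) (n : ℤ) (f : Rg r) :
    (cm s L j ζ n f : Rg N) = cut s L j (fun k => ext r ζ f (n + k)) := rfl

theorem chi_supp (h1 : T_H1) {s L j : ℕ} (hs : 1 ≤ s) (hL : 1 ≤ L) (k : ℤ)
    (hk : chi s L j k ≠ 0) :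
    k ∈ Finset.Ico (-(((j : ℤ) + 2) * L * s)) (((j : ℤ) + 2) * L * s) := by
  rw [Finset.mem_Ico]
  exact (h1 s L j k hs hL).2.2.2.2.1 hk

theorem chi_sq_le_one (h1 : T_H1) {s L j : ℕ} (hs : 1 ≤ s) (hL : 1 ≤ L) (k : ℤ) :
    (chi s L j k) ^ 2 ≤ 1 := by
  have h := (h1 s L j k hs hL).1
  nlinarith [h.1, h.2]

theorem cut_norm_sq_le (h1 : T_H1) {N s L j : ℕ} [NeZero N] (hs : 1 ≤ s) (hL : 1 ≤ L)
    (ψ : ℤ → ℂ) : ‖(cut s L j ψ : Rg N)‖ ^ 2
      ≤ ∑ k ∈ Finset.Ico (-(((j : ℤ) + 2) * L * s)) (((j : ℤ) + 2) * L * s), ‖ψ k‖ ^ 2 := by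
  rw [cut_norm_sq]
  refine (sum_vma_le (fun k => (chi s L j k) ^ 2 * ‖ψ k‖ ^ 2) (fun k => by positivity)
    (Finset.Ico (-(((j : ℤ) + 2) * L * s)) (((j : ℤ) + 2) * L * s)) ?_).trans ?_
  · intro k hk
    refine chi_supp h1 hs hL k ?_
    intro h
    exact hk (by simp [h])
  · refine Finset.sum_le_sum fun k _ => ?_
    have := chi_sq_le_one h1 (j := j) hs hL k
    have h2 : 0 ≤ ‖ψ k‖ ^ 2 := by positivity
    nlinarith

theorem sum_onb {ι : Type} [Fintype ι] {r : ℕ} [NeZero r] (u : OrthonormalBasis ι ℂ (Rg r))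
    (y : ZMod r) : ∑ i, ‖u i y‖ ^ 2 = 1 := by
  have h := u.sum_sq_norm_inner_right (EuclideanSpace.single y (1 : ℂ))
  have h2 : ∀ i, ‖inner ℂ (u i) (EuclideanSpace.single y (1 : ℂ))‖ = ‖u i y‖ := by
    intro i
    rw [EuclideanSpace.inner_single_right, one_mul, RCLike.norm_conj]
  simp only [h2] at h
  rw [h]
  simp

theorem card_ico (A : ℤ) (hA : 0 ≤ A) : ((Finset.Ico (-A) A).card : ℝ) = 2 * A := by
  rw [Int.card_Ico]
  have : (A - -A) = 2 * A := by ring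
  rw [this]
  have h2 : ((2 * A).toNat : ℤ) = 2 * A := Int.toNat_of_nonneg (by omega)
  exact_mod_cast congrArg (fun x : ℤ => (x : ℝ)) h2

theorem norm_cm_le (h1 : T_H1) {r N s L j : ℕ} [NeZero r] [NeZero N] (hs : 1 ≤ s) (hL : 1 ≤ L)
    {ζ : ℂ} (hζ : ‖ζ‖ = 1) (n : ℤ) (hr : 2 * (j + 2) * L * s ≤ r) (f : Rg r) :
    ‖(cm s L j ζ n f : Rg N)‖ ≤ ‖f‖ := by
  classical
  rw [cm_apply]
  refine le_of_sq_le_sq ?_ (norm_nonneg _)
  refine (cut_norm_sq_le h1 hs hL _).trans ?_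
  simp only [norm_ext hζ]
  set A : ℤ := ((j : ℤ) + 2) * L * s with hA
  have hr' : 2 * A ≤ r := by
    have : ((2 * (j + 2) * L * s : ℕ) : ℤ) ≤ r := by exact_mod_cast hr
    push_cast at this
    rw [hA]
    linarith
  have hinj : Set.InjOn (fun k : ℤ => ((n + k : ℤ) : ZMod r)) (Finset.Ico (-A) A : Finset ℤ) := by
    intro x hx y hy h
    rw [Finset.mem_coe, Finset.mem_Ico] at hx hy
    have h2 : ((n + x : ℤ) : ZMod r) = ((n + y : ℤ) : ZMod r) := h
    rw [ZMod.intCast_eq_intCast_iff_dvd_sub] at h2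
    obtain ⟨c, hc⟩ := h2
    have h3 : y - x = r * c := by linarith
    have h4 : c = 0 := by
      by_contra hne
      have hr0 : (0 : ℤ) < r := by
        have := NeZero.pos r
        exact_mod_cast this
      rcases lt_or_gt_of_ne hne with h5 | h5
      · have h6 : c ≤ -1 := by omega
        have : (r : ℤ) * c ≤ r * (-1) := mul_le_mul_of_nonneg_left h6 hr0.le
        omega
      · have h6 : 1 ≤ c := by omega
        have : (r : ℤ) * 1 ≤ r * c := mul_le_mul_of_nonneg_left h6 hr0.le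
        omega
    rw [h4] at h3
    omega
  rw [EuclideanSpace.norm_sq_eq]
  calc ∑ k ∈ Finset.Ico (-A) A, ‖f (((n + k : ℤ)) : ZMod r)‖ ^ 2
      = ∑ y ∈ (Finset.Ico (-A) A).image (fun k : ℤ => ((n + k : ℤ) : ZMod r)), ‖f y‖ ^ 2 := by
        rw [Finset.sum_image hinj]
    _ ≤ ∑ y : ZMod r, ‖f y‖ ^ 2 := by
        apply Finset.sum_le_sum_of_subset_of_nonneg (Finset.subset_univ _)
        intro y _ _
        positivity

theorem h9 (h1 : T_H1) : T_H9 := by
  intro s L j r N _ _ ζ ι _ u n hs hL hζ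
  refine ⟨?_, ?_, ?_⟩
  · calc ∑ i, ‖(cut s L j (fun k => ext r ζ (u i) (n + k)) : Rg N)‖ ^ 2
        ≤ ∑ i, ∑ k ∈ Finset.Ico (-(((j : ℤ) + 2) * L * s)) (((j : ℤ) + 2) * L * s),
            ‖ext r ζ (u i) (n + k)‖ ^ 2 :=
          Finset.sum_le_sum fun i _ => cut_norm_sq_le h1 hs hL _
      _ = ∑ k ∈ Finset.Ico (-(((j : ℤ) + 2) * L * s)) (((j : ℤ) + 2) * L * s),
            ∑ i, ‖u i ((n + k : ℤ) : ZMod r)‖ ^ 2 := by
          rw [Finset.sum_comm]
          simp only [norm_ext hζ]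
      _ = ((Finset.Ico (-(((j : ℤ) + 2) * L * s)) (((j : ℤ) + 2) * L * s)).card : ℝ) := by
          simp only [sum_onb]
          rw [Finset.sum_const, nsmul_eq_mul, mul_one]
      _ ≤ 2 * (j + 2) * L * s := by
          rw [card_ico _ (by positivity)]
          push_cast
          apply le_of_eq
          ring
  · intro hr w
    have h2 : ∀ i, ‖inner ℂ w (cut s L j (fun k => ext r ζ (u i) (n + k)) : Rg N)‖
        = ‖inner ℂ (u i) (LinearMap.adjoint (cm s L j ζ n : Rg r →ₗ[ℂ] Rg N) w)‖ := by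
      intro i
      rw [LinearMap.adjoint_inner_right, cm_apply]
      rw [← norm_inner_symm]
    simp only [h2]
    rw [u.sum_sq_norm_inner_right]
    have h3 : ‖LinearMap.adjoint (cm s L j ζ n : Rg r →ₗ[ℂ] Rg N) w‖ ≤ ‖w‖ := by
      set v := LinearMap.adjoint (cm s L j ζ n : Rg r →ₗ[ℂ] Rg N) w with hv
      have h4 : ‖v‖ ^ 2 ≤ ‖w‖ * ‖v‖ := by
        have h5 : (inner ℂ v v : ℂ) = inner ℂ w (cm s L j ζ n v : Rg N) := by
          conv_lhs => rw [hv]
          rw [LinearMap.adjoint_inner_left]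
        have h6 : ‖v‖ ^ 2 = ‖(inner ℂ v v : ℂ)‖ := by
          rw [inner_self_eq_norm_sq_to_K]
          simp
        rw [h6, h5]
        refine (norm_inner_le_norm _ _).trans ?_
        exact mul_le_mul_of_nonneg_left (norm_cm_le h1 hs hL hζ n hr v) (norm_nonneg _)
      by_contra hlt
      push_neg at hlt
      have h7 : 0 < ‖v‖ := lt_of_le_of_lt (norm_nonneg _) hlt
      nlinarith
    exact pow_le_pow_left₀ (norm_nonneg _) h3 2
  · intro hr f
    exact norm_cm_le h1 hs hL hζ n hr f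

end Pool.Agent.H33.AM
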