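import Pool.Agent.H98.AM.Targets

/-!
# Critical almost Mathieu operator (MP_29bb0a_mp): lemmas for the modules H4, H6, H7, H8, H9, H10.
helper33
-/

open scoped ComplexConjugate

noncomputable section

namespace Pool.Agent.H33.AM

open Pool.Agent.H98.AM

/-! ## the exponential -/

theorem ex_add (a b : ℝ) : ex (a + b) = ex a * ex b := by
  unfold ex
  rw [← Complex.exp_add]
  congr 1
  push_cast
  ring

theorem ex_int (m : ℤ) : ex (m : ℝ) = 1 := by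
  unfold ex
  rw [Complex.exp_eq_one_iff]
  refine ⟨m, ?_⟩
  push_cast
  ring

theorem ex_add_int (a : ℝ) (m : ℤ) : ex (a + m) = ex a := by
  rw [ex_add, ex_int, mul_one]

theorem norm_ex (a : ℝ) : ‖ex a‖ = 1 := by
  unfold ex
  have : (2 * Real.pi * a * Complex.I : ℂ) = ((2 * Real.pi * a : ℝ) : ℂ) * Complex.I := by
    push_cast
    ring
  rw [this, Complex.norm_exp_ofReal_mul_I]

theorem norm_ex_sub_one (t : ℝ) : ‖ex t - 1‖ ≤ 2 * Real.pi * |t| := by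
  unfold ex
  have h : (2 * Real.pi * t * Complex.I : ℂ) = Complex.I * ((2 * Real.pi * t : ℝ) : ℂ) := by
    push_cast
    ring
  rw [h]
  refine (Real.norm_exp_I_mul_ofReal_sub_one_le (x := 2 * Real.pi * t)).trans ?_
  rw [Real.norm_eq_abs, abs_mul, abs_of_pos (by positivity : (0 : ℝ) < 2 * Real.pi)]

/-! ## sums over a ring -/

theorem sum_vma_le {N : ℕ} [NeZero N] (F : ℤ → ℝ) (hF : ∀ k, 0 ≤ F k) (B : Finset ℤ)
    (h0 : ∀ k, F k ≠ 0 → k ∈ B) : ∑ n : ZMod N, F n.valMinAbs ≤ ∑ k ∈ B, F k := by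
  classical
  have h1 : ∑ n : ZMod N, F n.valMinAbs
      = ∑ k ∈ (Finset.univ : Finset (ZMod N)).image ZMod.valMinAbs, F k := by
    rw [Finset.sum_image]
    intro x _ y _ h
    exact ZMod.injective_valMinAbs h
  rw [h1]
  calc ∑ k ∈ (Finset.univ : Finset (ZMod N)).image ZMod.valMinAbs, F k
      = ∑ k ∈ ((Finset.univ : Finset (ZMod N)).image ZMod.valMinAbs).filter (fun k => F k ≠ 0),
          F k := by
        rw [Finset.sum_filter_ne_zero]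
    _ ≤ ∑ k ∈ B, F k := by
        apply Finset.sum_le_sum_of_subset_of_nonneg
        · intro k hk
          exact h0 k (Finset.mem_filter.1 hk).2
        · intro k _ _
          exact hF k

theorem vma_cast {N : ℕ} [NeZero N] (k : ℤ) (h1 : -(N : ℤ) < 2 * k) (h2 : 2 * k ≤ N) :
    (k : ZMod N).valMinAbs = k := by
  rw [ZMod.valMinAbs_spec]
  refine ⟨rfl, ?_⟩
  constructor
  · omega
  · omega

theorem sum_vma_ge {N : ℕ} [NeZero N] (F : ℤ → ℝ) (hF : ∀ k, 0 ≤ F k) (B : Finset ℤ)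
    (h0 : ∀ k ∈ B, -(N : ℤ) < 2 * k ∧ 2 * k ≤ N) :
    ∑ k ∈ B, F k ≤ ∑ n : ZMod N, F n.valMinAbs := by
  classical
  have h1 : ∑ n : ZMod N, F n.valMinAbs
      = ∑ k ∈ (Finset.univ : Finset (ZMod N)).image ZMod.valMinAbs, F k := by
    rw [Finset.sum_image]
    intro x _ y _ h
    exact ZMod.injective_valMinAbs h
  rw [h1]
  apply Finset.sum_le_sum_of_subset_of_nonneg
  · intro k hk
    rw [Finset.mem_image]
    exact ⟨(k : ZMod N), Finset.mem_univ _, vma_cast k (h0 k hk).1 (h0 k hk).2⟩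
  · intro k _ _
    exact hF k

theorem sum_vma_eq {N : ℕ} [NeZero N] (F : ℤ → ℝ) (hF : ∀ k, 0 ≤ F k) (B : Finset ℤ)
    (h0 : ∀ k, F k ≠ 0 → k ∈ B) (h1 : ∀ k ∈ B, -(N : ℤ) < 2 * k ∧ 2 * k ≤ N) :
    ∑ n : ZMod N, F n.valMinAbs = ∑ k ∈ B, F k :=
  le_antisymm (sum_vma_le F hF B h0) (sum_vma_ge F hF B h1)

theorem sum_range_zmod {r : ℕ} [NeZero r] (g : ZMod r → ℝ) :
    ∑ a ∈ Finset.range r, g ((a : ℕ) : ZMod r) = ∑ y : ZMod r, g y := by
  symm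
  refine Finset.sum_bij (fun y _ => y.val) ?_ ?_ ?_ ?_
  · intro y _
    exact Finset.mem_range.2 (ZMod.val_lt y)
  · intro y _ z _ h
    exact ZMod.val_injective r h
  · intro b hb
    exact ⟨(b : ZMod r), Finset.mem_univ _, ZMod.val_cast_of_lt (Finset.mem_range.1 hb)⟩
  · intro y _
    rw [ZMod.natCast_zmod_val]

theorem sum_translate {r : ℕ} [NeZero r] (f : Rg r) (m : ℤ) :
    ∑ a ∈ Finset.range r, ‖f (((a : ℤ) + m : ℤ) : ZMod r)‖ ^ 2 = ‖f‖ ^ 2 := by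
  rw [EuclideanSpace.norm_sq_eq]
  have h := sum_range_zmod (r := r) (fun y => ‖f (y + (m : ZMod r))‖ ^ 2)
  have h2 : ∑ a ∈ Finset.range r, ‖f (((a : ℤ) + m : ℤ) : ZMod r)‖ ^ 2
      = ∑ a ∈ Finset.range r, ‖f (((a : ℕ) : ZMod r) + (m : ZMod r))‖ ^ 2 := by
    refine Finset.sum_congr rfl fun a _ => ?_
    push_cast
    rfl
  rw [h2, h]
  exact Equiv.sum_comp (Equiv.addRight (m : ZMod r)) (fun y => ‖f y‖ ^ 2)

/-! ## cut-offs -/

theorem cut_apply {N : ℕ} [NeZero N] (s L j : ℕ) (ψ : ℤ → ℂ) (n : ZMod N) :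
    (cut s L j ψ : Rg N) n = (chi s L j n.valMinAbs : ℂ) * ψ n.valMinAbs := rfl

theorem cut_norm_sq {N : ℕ} [NeZero N] (s L j : ℕ) (ψ : ℤ → ℂ) :
    ‖(cut s L j ψ : Rg N)‖ ^ 2
      = ∑ n : ZMod N, (chi s L j n.valMinAbs) ^ 2 * ‖ψ n.valMinAbs‖ ^ 2 := by
  rw [EuclideanSpace.norm_sq_eq]
  refine Finset.sum_congr rfl fun n _ => ?_
  rw [cut_apply, norm_mul, mul_pow, Complex.norm_real, Real.norm_eq_abs, sq_abs]

theorem norm_ext {r : ℕ} {ζ : ℂ} (hζ : ‖ζ‖ = 1) (f : ZMod r → ℂ) (n : ℤ) :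
    ‖ext r ζ f n‖ = ‖f (n : ZMod r)‖ := by
  unfold ext
  rw [norm_mul, norm_zpow, RCLike.norm_conj, hζ, one_zpow, one_mul]

end Pool.Agent.H33.AM
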